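import Pool.Agent.W208.TL.Stm

set_option autoImplicit false

namespace Pool.Agent.W15.TL

open Finset Filter
open Pool.Agent.W208.TL

theorem PP_zero_subset {y Y : ℕ} (h : y ≤ Y) : PP 0 y ⊆ PP 0 Y := by
  intro l hl
  simp only [PP, mem_filter, mem_Ioc] at hl ⊢
  exact ⟨⟨hl.1.1, hl.1.2.trans h⟩, hl.2⟩

theorem fact_sm {Y l : ℕ} (hl : l ∈ PP 0 Y) (m : ℕ) : (sm 0 Y m).factorization l = m.factorization l := by
  have hlp : l.Prime := by simp only [PP, mem_filter] at hl; exact hl.2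
  unfold sm
  rw [Nat.factorization_prod (fun x hx => by
    have hx2 : x.Prime := by simp only [PP, mem_filter] at hx; exact hx.2
    exact pow_ne_zero _ hx2.ne_zero)]
  rw [Finset.sum_apply']
  rw [Finset.sum_eq_single l]
  · simp [hlp.factorization_self]
  · intro b hb hbl
    have hbp : b.Prime := by simp only [PP, mem_filter] at hb; exact hb.2
    rw [Nat.factorization_pow]
    simp [hbp.factorization, hbl]
  · intro h; exact absurd hl h

theorem sm_sm {y Y : ℕ} (h : y ≤ Y) (m : ℕ) : sm 0 y (sm 0 Y m) = sm 0 y m := by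
  conv_lhs => unfold sm
  conv_rhs => unfold sm
  refine Finset.prod_congr rfl fun l hl => ?_
  have := fact_sm (PP_zero_subset h hl) m
  unfold sm at this
  rw [this]

theorem mu_nonneg (w y d : ℕ) : 0 ≤ mu w y d := by
  unfold mu
  split_ifs
  · refine div_nonneg (Finset.prod_nonneg fun l hl => ?_) (Nat.cast_nonneg d)
    have hlp : l.Prime := by simp only [PP, mem_filter] at hl; exact hl.2
    have h1 : (1 : ℝ) ≤ l := by exact_mod_cast hlp.one_lt.le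
    have : 1 / (l : ℝ) ≤ 1 := by rw [div_le_one (by linarith)]; exact h1
    linarith
  · exact le_refl _

theorem cav_le {k : ℕ} (w y Z : ℕ) (Φ : (Fin k → ℕ) → ℂ) (hΦ : ∀ d, ‖Φ d‖ ≤ 1) (A : Fin k → ℕ) :
    ‖cav w y Z Φ A‖ ≤ 1 := by
  unfold cav
  have hS : (∑ d ∈ Icc 1 Z, (mu w y d : ℂ)) = ((∑ d ∈ Icc 1 Z, mu w y d : ℝ) : ℂ) := by
    push_cast; rfl
  have hS0 : 0 ≤ ∑ d ∈ Icc 1 Z, mu w y d := Finset.sum_nonneg fun d _ => mu_nonneg w y d
  rw [norm_div, norm_pow, hS, Complex.norm_real, Real.norm_of_nonneg hS0]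
  refine div_le_one_of_le₀ ?_ (pow_nonneg hS0 k)
  refine (norm_sum_le _ _).trans ?_
  have h2 : (∑ d ∈ Icc 1 Z, mu w y d) ^ k = ∑ d ∈ Pool.Agent.W208.TL.box k Z, ∏ j, mu w y (d j) := by
    unfold Pool.Agent.W208.TL.box
    rw [← Finset.prod_univ_sum (fun _ : Fin k => Icc 1 Z) (fun _ d => mu w y d)]
    simp
  rw [h2]
  refine Finset.sum_le_sum fun d _ => ?_
  rw [norm_mul, norm_prod]
  have : ∏ j, ‖((mu w y (d j) : ℝ) : ℂ)‖ = ∏ j, mu w y (d j) :=
    Finset.prod_congr rfl fun j _ => by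
      rw [Complex.norm_real, Real.norm_of_nonneg (mu_nonneg _ _ _)]
  rw [this]
  have h3 : 0 ≤ ∏ j, mu w y (d j) := Finset.prod_nonneg fun j _ => mu_nonneg _ _ _
  calc _ ≤ 1 * ∏ j, mu w y (d j) := mul_le_mul_of_nonneg_right (hΦ _) h3
    _ = _ := one_mul _

theorem gcd_lf_mod (a : ℤ) (Q n : ℕ) : Nat.gcd (lf 1 a n) Q = Nat.gcd (lf 1 a (n % Q)) Q := by
  unfold lf
  have h1 : Nat.gcd ((((1 : ℕ) : ℤ) * n + a).natAbs) Q = Int.gcd ((n : ℤ) + a) Q := by
    rw [Int.gcd]; simp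
  have h2 : Nat.gcd ((((1 : ℕ) : ℤ) * ((n % Q : ℕ) : ℤ) + a).natAbs) Q
      = Int.gcd (((n % Q : ℕ) : ℤ) + a) Q := by
    rw [Int.gcd]; simp
  rw [h1, h2]
  have h3 : (n : ℤ) + a = (((n % Q : ℕ) : ℤ) + a) + (Q : ℤ) * ((n / Q : ℕ) : ℤ) := by
    have := Nat.mod_add_div n Q
    have h4 : (n : ℤ) = ((n % Q : ℕ) : ℤ) + (Q : ℤ) * ((n / Q : ℕ) : ℤ) := by
      exact_mod_cast this.symm
    linarith
  rw [h3, Int.gcd_add_mul_left_left]

theorem core (hST : ST) (k h0 : ℕ) (h : Fin k → ℕ) (hk : 1 ≤ k) (hinj : Function.Injective h)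
    (hne : ∀ j, h j ≠ h0) (ε : ℝ) (hε : 0 < ε) : ∃ A : ℕ, 1 ≤ A ∧ ∀ f : ℕ → ℂ, KF f →
    (∀ q r : ℕ, 1 ≤ q → Tendsto (fun X : ℕ =>
      (∑ n ∈ (Ioc 0 X).filter (fun n => n ≡ r [MOD q]), f n) / (X : ℂ)) atTop (nhds 0)) →
    ∃ X0 : ℕ, ∀ X : ℕ, X0 ≤ X → ∀ y : ℕ, y ^ A ≤ X →
    ∀ Φ : (Fin k → ℕ) → ℂ, (∀ d, ‖Φ d‖ ≤ 1) →
      ‖∑ n ∈ Ioc 0 X, f (n + h0) * Φ (fun j => sm 0 y (n + h j))‖ ≤ ε * X := by
  classical
  obtain ⟨Q, w, K1, K, y0, -, hQ, hK1, hK, H⟩ := hST k (fun j => (h j : ℤ) - h0) hk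
    (fun i j hij => hinj (by simpa using hij)) (fun j => by
      have := hne j; omega) 1 le_rfl (ε / 3) (by positivity)
  refine ⟨K, hK, fun f hf hmean => ?_⟩
  -- residue classes
  have hres : ∀ r : ℕ, ∃ X1 : ℕ, ∀ X : ℕ, X1 ≤ X →
      ‖∑ n ∈ (Ioc 0 X).filter (fun n => n ≡ r [MOD Q]), f n‖ ≤ ε / (3 * Q) * X := by
    intro r
    have hQ' : (0 : ℝ) < Q := by exact_mod_cast hQ
    have := (Metric.tendsto_atTop.1 (hmean Q r hQ)) (ε / (3 * Q)) (by positivity)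
    obtain ⟨N, hN⟩ := this
    refine ⟨max N 1, fun X hX => ?_⟩
    have h1 := hN X (le_trans (le_max_left _ _) hX)
    have hX1 : 1 ≤ X := le_trans (le_max_right _ _) hX
    have hX' : (0 : ℝ) < X := by exact_mod_cast hX1
    rw [dist_zero_right, norm_div, Complex.norm_natCast, div_lt_iff₀ hX'] at h1
    exact h1.le
  choose X1 hX1 using hres
  refine ⟨max (max 1 (y0 ^ K)) (max (⌈(6 * h0 : ℝ) / ε⌉₊) ((Finset.range Q).sup X1)), ?_⟩
  intro X hX y hy Φ hΦ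
  have hXa : 1 ≤ X := le_trans (le_trans (le_max_left _ _) (le_max_left _ _)) hX
  have hXb : y0 ^ K ≤ X := le_trans (le_trans (le_max_right _ _) (le_max_left _ _)) hX
  have hXc : ⌈(6 * h0 : ℝ) / ε⌉₊ ≤ X := le_trans (le_trans (le_max_left _ _) (le_max_right _ _)) hX
  have hXd : (Finset.range Q).sup X1 ≤ X :=
    le_trans (le_trans (le_max_right _ _) (le_max_right _ _)) hX
  have hX0 : (0 : ℝ) < X := by exact_mod_cast hXa
  -- the level
  obtain ⟨Y, hyY, hy0Y, hYX⟩ : ∃ Y : ℕ, y ≤ Y ∧ y0 ≤ Y ∧ Y ^ K ≤ X := by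
    rcases le_total y y0 with hc | hc
    · exact ⟨y0, hc, le_rfl, hXb⟩
    · exact ⟨y, le_rfl, hc, hy⟩
  obtain ⟨-, -, H3⟩ := H Y X hy0Y hYX
  set Φ' : (Fin k → ℕ) → ℂ := fun s => Φ (fun j => sm 0 y (s j)) with hΦ'
  have hΦ'1 : ∀ d, ‖Φ' d‖ ≤ 1 := fun d => hΦ _
  have H4 := H3 Φ' hΦ'1 f hf (fun _ => 1) (fun _ => by simp) (fun _ => rfl)
  set G : ℕ → ℂ := fun n => Φ' (fun j => sm 0 Y (lf 1 ((h j : ℤ) - h0) n)) with hG
  set g : ℕ → ℂ := fun n => cav w Y (Y ^ K1) Φ' (fun j => Nat.gcd (lf 1 ((h j : ℤ) - h0) n) Q)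
    with hg
  have H5 : ‖∑ n ∈ Ioc 0 X, f n * (G n - g n)‖ ≤ ε / 3 * X := by
    simpa [hG, hg] using H4
  -- shift
  have hshift : ∑ n ∈ Ioc 0 X, f (n + h0) * Φ (fun j => sm 0 y (n + h j))
      = ∑ n ∈ Ioc h0 (X + h0), f n * G n := by
    have hmap : Ioc h0 (X + h0) = (Ioc 0 X).image (fun n => n + h0) := by
      ext m
      simp only [mem_Ioc, mem_image]
      constructor
      · rintro ⟨h1, h2⟩
        exact ⟨m - h0, ⟨by omega, by omega⟩, by omega⟩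
      · rintro ⟨a, ⟨h1, h2⟩, rfl⟩
        omega
    rw [hmap, Finset.sum_image (by intro a _ b _ hab; simpa using hab)]
    refine Finset.sum_congr rfl fun n _ => ?_
    congr 1
    simp only [hG, hΦ']
    congr 1
    funext j
    rw [sm_sm hyY]
    congr 1
    unfold lf
    have : ((1 : ℕ) : ℤ) * ((n + h0 : ℕ) : ℤ) + ((h j : ℤ) - h0) = ((n + h j : ℕ) : ℤ) := by
      push_cast; ring
    rw [this, Int.natAbs_natCast]
  have hG1 : ∀ n, ‖G n‖ ≤ 1 := fun n => hΦ'1 _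
  have hg1 : ∀ n, ‖g n‖ ≤ 1 := fun n => cav_le _ _ _ _ hΦ'1 _
  have hfG : ∀ n, ‖f n * G n‖ ≤ 1 := fun n => by
    rw [norm_mul]
    exact mul_le_one₀ (hf.1 n) (norm_nonneg _) (hG1 n)
  -- boundary terms
  have hbd : ‖∑ n ∈ Ioc h0 (X + h0), f n * G n - ∑ n ∈ Ioc 0 X, f n * G n‖ ≤ 2 * h0 := by
    have e1 : ∑ n ∈ Ioc 0 (X + h0), f n * G n
        = ∑ n ∈ Ioc 0 h0, f n * G n + ∑ n ∈ Ioc h0 (X + h0), f n * G n := by
      rw [← Finset.sum_union]
      · congr 1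
        ext m; simp only [mem_union, mem_Ioc]; omega
      · rw [Finset.disjoint_left]; intro m; simp only [mem_Ioc]; omega
    have e2 : ∑ n ∈ Ioc 0 (X + h0), f n * G n
        = ∑ n ∈ Ioc 0 X, f n * G n + ∑ n ∈ Ioc X (X + h0), f n * G n := by
      rw [← Finset.sum_union]
      · congr 1
        ext m; simp only [mem_union, mem_Ioc]; omega
      · rw [Finset.disjoint_left]; intro m; simp only [mem_Ioc]; omega
    have e3 : ∑ n ∈ Ioc h0 (X + h0), f n * G n - ∑ n ∈ Ioc 0 X, f n * G n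
        = ∑ n ∈ Ioc X (X + h0), f n * G n - ∑ n ∈ Ioc 0 h0, f n * G n := by
      have := e1.symm.trans e2
      linear_combination this
    rw [e3]
    refine (norm_sub_le _ _).trans ?_
    have n1 : ‖∑ n ∈ Ioc X (X + h0), f n * G n‖ ≤ h0 := by
      refine (norm_sum_le _ _).trans ?_
      refine (Finset.sum_le_sum fun n _ => hfG n).trans ?_
      simp
    have n2 : ‖∑ n ∈ Ioc 0 h0, f n * G n‖ ≤ h0 := by
      refine (norm_sum_le _ _).trans ?_
      refine (Finset.sum_le_sum fun n _ => hfG n).trans ?_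
      simp
    linarith
  have hbd2 : (2 * h0 : ℝ) ≤ ε / 3 * X := by
    have h1 : (6 * h0 : ℝ) / ε ≤ X := (Nat.le_ceil _).trans (by exact_mod_cast hXc)
    rw [div_le_iff₀ hε] at h1
    linarith
  -- the main term
  have hgmod : ∀ n, g n = g (n % Q) := by
    intro n
    simp only [hg]
    congr 1
    funext j
    exact gcd_lf_mod _ Q n
  have hmain : ‖∑ n ∈ Ioc 0 X, f n * g n‖ ≤ ε / 3 * X := by
    have hfib : ∑ n ∈ Ioc 0 X, f n * g n
        = ∑ r ∈ Finset.range Q, ∑ n ∈ (Ioc 0 X).filter (fun n => n % Q = r), f n * g n := by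
      rw [Finset.sum_fiberwise_of_maps_to]
      intro n _
      exact Finset.mem_range.2 (Nat.mod_lt _ hQ)
    rw [hfib]
    refine (norm_sum_le _ _).trans ?_
    have hterm : ∀ r ∈ Finset.range Q,
        ‖∑ n ∈ (Ioc 0 X).filter (fun n => n % Q = r), f n * g n‖ ≤ ε / (3 * Q) * X := by
      intro r hr
      have hrQ : r < Q := Finset.mem_range.1 hr
      have e1 : (Ioc 0 X).filter (fun n => n % Q = r)
          = (Ioc 0 X).filter (fun n => n ≡ r [MOD Q]) := by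
        refine Finset.filter_congr fun n _ => ?_
        rw [Nat.ModEq, Nat.mod_eq_of_lt hrQ]
      have e2 : ∑ n ∈ (Ioc 0 X).filter (fun n => n % Q = r), f n * g n
          = (∑ n ∈ (Ioc 0 X).filter (fun n => n ≡ r [MOD Q]), f n) * g r := by
        rw [← e1, Finset.sum_mul]
        refine Finset.sum_congr rfl fun n hn => ?_
        rw [hgmod n, (Finset.mem_filter.1 hn).2]
      rw [e2, norm_mul]
      have h2 := hX1 r X ((Finset.le_sup hr).trans hXd)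
      calc _ ≤ (ε / (3 * Q) * X) * 1 :=
            mul_le_mul h2 (hg1 r) (norm_nonneg _) ((norm_nonneg _).trans h2)
        _ = _ := mul_one _
    refine (Finset.sum_le_sum hterm).trans ?_
    rw [Finset.sum_const, Finset.card_range, nsmul_eq_mul]
    have hQ' : (Q : ℝ) ≠ 0 := by positivity
    apply le_of_eq
    field_simp
  rw [hshift]
  have hsplit : ∑ n ∈ Ioc h0 (X + h0), f n * G n
      = (∑ n ∈ Ioc h0 (X + h0), f n * G n - ∑ n ∈ Ioc 0 X, f n * G n)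
        + ∑ n ∈ Ioc 0 X, f n * (G n - g n) + ∑ n ∈ Ioc 0 X, f n * g n := by
    have : ∑ n ∈ Ioc 0 X, f n * (G n - g n)
        = ∑ n ∈ Ioc 0 X, f n * G n - ∑ n ∈ Ioc 0 X, f n * g n := by
      rw [← Finset.sum_sub_distrib]
      exact Finset.sum_congr rfl fun n _ => by ring
    rw [this]; ring
  rw [hsplit]
  calc _ ≤ 2 * h0 + ε / 3 * X + ε / 3 * X :=
        (norm_add₃_le).trans (add_le_add (add_le_add hbd H5) hmain)
    _ ≤ ε * X := by linarith

theorem kf_lam : KF (fun n => (-1 : ℂ) ^ (ArithmeticFunction.cardFactors n)) := by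
  refine ⟨fun n => by simp, fun _ => -1, fun n => (-1 : ℂ) ^ (ArithmeticFunction.cardFactors n),
    fun n => by simp, fun n => by simp, ?_⟩
  intro p n hp hn
  have hn0 : n ≠ 0 := by rintro rfl; exact hn (dvd_zero p)
  simp only
  rw [ArithmeticFunction.cardFactors_mul hp.ne_zero hn0,
    ArithmeticFunction.cardFactors_apply_prime hp, pow_add, pow_one]

theorem kf_mob : KF (fun n => ((ArithmeticFunction.moebius n : ℤ) : ℂ)) := by
  have hb : ∀ n, ‖((ArithmeticFunction.moebius n : ℤ) : ℂ)‖ ≤ 1 := by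
    intro n
    rw [Complex.norm_intCast]
    have := ArithmeticFunction.abs_moebius_le_one (n := n)
    exact_mod_cast this
  refine ⟨hb, fun _ => -1, fun n => ((ArithmeticFunction.moebius n : ℤ) : ℂ), fun n => by simp, hb, ?_⟩
  intro p n hp hn
  have hc : Nat.Coprime p n := (Nat.Prime.coprime_iff_not_dvd hp).2 hn
  simp only
  rw [ArithmeticFunction.isMultiplicative_moebius.map_mul_of_coprime hc,
    ArithmeticFunction.moebius_apply_prime hp]
  push_cast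
  ring

theorem ch (hST : ST) (hM : MEANS) : CH := by
  intro k h0 h hk hinj hne ε hε
  obtain ⟨A, hA, H⟩ := core hST k h0 h hk hinj hne ε hε
  obtain ⟨X1, h1⟩ := H _ kf_lam (fun q r hq => (hM q r hq).1)
  obtain ⟨X2, h2⟩ := H _ kf_mob (fun q r hq => (hM q r hq).2)
  refine ⟨A, max X1 X2, hA, fun X hX y hy Φ hΦ => ⟨?_, ?_⟩⟩
  · exact h1 X (le_trans (le_max_left _ _) hX) y hy Φ hΦ
  · exact h2 X (le_trans (le_max_right _ _) hX) y hy Φ hΦ

end Pool.Agent.W15.TL
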